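import Pool.Agent.H591R3.PHG.Event
import Pool.Agent.H620R2.Gauge.Cover

/-! Covers of the sets of oracles for which the hard languages are easy. -/

set_option autoImplicit false

namespace Pool.Agent.H591R3.PHG

open Finset H568R2 Pool.Agent.H676 Pool.Agent.H620R2.Gauge Pool.Agent.NPC

theorem ev2_of_easy (θ : Par) : ∃ Q : Polynomial ℕ, ∀ A ∈ Easy2 θ, ∀ (as : List ℕ) (n N u : ℕ),
    as.length = θ.k + 1 → (∀ a ∈ as, a ≤ 64 * n) →
    ∀ hN : ∀ g : Idx (Fin (2 ^ (u + 11))) (8 * n :: pw as),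
      idx (addr (inp as n (2 ^ (u + 11))) as g.1 ++ List.replicate g.2.val true) < N,
    2 ^ (Q.eval n + 1) ≤ N → Ev2 θ as n N u hN (pre N A) := by
  obtain ⟨qb, hqb⟩ := Alg.out_local θ.M
  refine ⟨qb.comp (Lt θ), ?_⟩
  rintro A ⟨V, h, hM, hh, hx⟩ as n N u hk has hpos hN
  have hQ : (qb.comp (Lt θ)).eval n = qb.eval ((Lt θ).eval n) := by
    simp [Polynomial.eval_comp]
  rw [hQ] at hN
  have hV : ∀ y : List Bool, y.length ≤ (Lt θ).eval n →
      (V y = [true] ↔ leaf θ.M N y (pre N A) = true) := by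
    intro y hy
    obtain ⟨Q, _, hQl, hQA⟩ := hqb A y
    have h1 : θ.M.out (orc N (pre N A)) y = θ.M.out A y := by
      apply hQA
      intro q hq
      apply orc_pre
      have h2 := idx_lt q
      have h3 : q.length ≤ qb.eval ((Lt θ).eval n) := (hQl q hq).trans (eval_mono _ hy)
      have h4 : 2 ^ (q.length + 1) ≤ 2 ^ (qb.eval ((Lt θ).eval n) + 1) :=
        Nat.pow_le_pow_right (by norm_num) (by omega)
      omega
    unfold leaf
    rw [h1, hM y, decide_eq_true_eq, Option.some.injEq]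
  have hlx : lx as n ≤ (Lx θ.k).eval n := inp_len_le hk has
  refine ⟨(h (lx as n)).length, (hh _).trans (eval_mono _ hlx), h (lx as n), rfl, ?_⟩
  intro j
  have hlen : (inp as n (2 ^ (u + 11)) j).length = lx as n := inp_len as n _ j
  have h1 := hx (inp as n (2 ^ (u + 11)) j)
  rw [hlen, length_pairBits, hlen] at h1
  have h2 : inp as n (2 ^ (u + 11)) j ∈ lang θ.k A ↔
      Tr (8 * n :: pw as) (fun g => pre N A (pos as n (2 ^ (u + 11)) N hpos g)) j = false := by
    refine (mem_lang_iff A θ.k as hk (8 * n)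
      (fun j : Fin (2 ^ (u + 11)) => bitsOf (n + 11) j.val) j).trans ?_
    have e : leaves (fun j : Fin (2 ^ (u + 11)) => enc as (8 * n) (bitsOf (n + 11) j.val)) as
        (8 * n) A = fun g => pre N A (pos as n (2 ^ (u + 11)) N hpos g) := by
      funext g
      show A (addr (inp as n (2 ^ (u + 11))) as g.1 ++ List.replicate g.2.val true) =
        A (str (idx (addr (inp as n (2 ^ (u + 11))) as g.1 ++ List.replicate g.2.val true)))
      rw [str_idx]
    rw [e]
  have hlt : 2 * lx as n + 1 + (h (lx as n)).length ≤ (L0 θ).eval n := by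
    rw [eval_L0]
    have := (hh (lx as n)).trans (eval_mono _ hlx)
    omega
  have h3 := quant_iff (m := θ.p.eval (2 * lx as n + 1 + (h (lx as n)).length))
    ((Lt θ).eval n) hV θ.k true
    (pairBits (inp as n (2 ^ (u + 11)) j) (h (lx as n))) (by
      rw [length_pairBits, hlen, eval_Lt]
      have h5 : θ.p.eval (2 * lx as n + 1 + (h (lx as n)).length) ≤
        θ.p.eval ((L0 θ).eval n) := eval_mono _ hlt
      have h6 : θ.k * (2 * θ.p.eval (2 * lx as n + 1 + (h (lx as n)).length) + 1) ≤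
        θ.k * (2 * θ.p.eval ((L0 θ).eval n) + 1) := Nat.mul_le_mul_left _ (by omega)
      omega)
  have h4 : QF (θ.p.eval (2 * lx as n + 1 + (h (lx as n)).length)) (leaf θ.M N) θ.k true
      (pairBits (inp as n (2 ^ (u + 11)) j) (h (lx as n))) (pre N A) = true ↔
      Tr (8 * n :: pw as) (fun g => pre N A (pos as n (2 ^ (u + 11)) N hpos g)) j = false := by
    rw [← h2, h1, ← h3]
  intro heq
  rw [heq] at h4
  cases hb : Tr (8 * n :: pw as) (fun g => pre N A (pos as n (2 ^ (u + 11)) N hpos g)) j with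
  | true => rw [hb] at h4; exact absurd (h4.1 rfl) (by simp)
  | false => rw [hb] at h4; exact absurd (h4.2 rfl) (by simp)

theorem cover_easy2 (θ : Par) (f : ℕ → ℝ)
    (hf : ∀ ε : ℝ, 0 < ε → ∃ᶠ N : ℕ in Filter.atTop, f N ≤ 2 ^ (Real.logb 2 N) ^ ε)
    (δ : ℝ) (hδ : 0 < δ) : ∃ S : Set (List Bool), (∀ A ∈ Easy2 θ, ∃ σ ∈ S, Extends A σ) ∧
    ∑' σ : S, ENNReal.ofReal (2 ^ (f σ.1.length - σ.1.length)) ≤ ENNReal.ofReal δ := by
  classical
  obtain ⟨Q, hQ⟩ := ev2_of_easy θ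
  obtain ⟨n, N, u, hn5, hP, hu, hN, hb⟩ := asym θ.k (PP θ)
    (Q + Lx θ.k + Polynomial.C (64 * (θ.k + 1) + 8) * Polynomial.X) f hf δ hδ 5
  have hQe : (Q + Lx θ.k + Polynomial.C (64 * (θ.k + 1) + 8) * Polynomial.X).eval n =
      Q.eval n + (Lx θ.k).eval n + (64 * (θ.k + 1) + 8) * n := by simp
  rw [hQe] at hN
  have hN1 : 2 ^ (Q.eval n + 1) ≤ N :=
    le_trans (Nat.pow_le_pow_right (by norm_num) (by omega)) hN
  have hN2 : 2 ^ ((Lx θ.k).eval n + 64 * (θ.k + 1) * n + 8 * n + 1) ≤ N := by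
    refine le_trans (Nat.pow_le_pow_right (by norm_num) ?_) hN
    have : (64 * (θ.k + 1) + 8) * n = 64 * (θ.k + 1) * n + 8 * n := by ring
    omega
  have hu8 : 8 * u ≤ n := by
    have : 8 * u ≤ 8 * (θ.k + 1) * u := by nlinarith [Nat.zero_le (θ.k * u)]
    omega
  obtain ⟨as, hk, has, hX⟩ := exists_sizes hn5 θ.k _ (inv_start hn5)
  have hlaw := hX (Fin (2 ^ (u + 11))) (2 ^ (3 * u + 11)) (2 ^ (u + 9)) (by
      calc 16 * 2 ^ (3 * u + 11) = 2 ^ (3 * u + 15) := by
            rw [show 3 * u + 15 = 3 * u + 11 + 4 from rfl, pow_add _ (3 * u + 11) 4]; ring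
        _ ≤ 2 ^ (4 * n) := Nat.pow_le_pow_right (by norm_num) (by omega)) (by
      rw [Fintype.card_fin]
      have : 2 ^ (u + 11) = 4 * 2 ^ (u + 9) := by
        rw [show u + 11 = u + 9 + 2 from rfl, pow_add _ (u + 9) 2]; ring
      omega)
  rw [Fintype.card_fin] at hlaw
  have hpos : ∀ g : Idx (Fin (2 ^ (u + 11))) (8 * n :: pw as),
      idx (addr (inp as n (2 ^ (u + 11))) as g.1 ++ List.replicate g.2.val true) < N :=
    fun g => pos_lt hk has hN2 g
  have hev := ev2_bound θ hn5 hu8 hk has hlaw hP hpos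
  refine ⟨(fun a : Fin N → Bool => List.ofFn a) '' {a | Ev2 θ as n N u hpos a}, ?_, ?_⟩
  · intro A hA
    refine ⟨List.ofFn (pre N A), ⟨pre N A, hQ A hA as n N u hk has hpos hN1, rfl⟩, ?_⟩
    intro i hi
    rw [List.getElem_ofFn]
    rfl
  · have hinj : Set.InjOn (fun a : Fin N → Bool => List.ofFn a) {a | Ev2 θ as n N u hpos a} :=
      fun a _ b _ h => List.ofFn_injective h
    rw [tsum_image (fun σ : List Bool => ENNReal.ofReal (2 ^ (f σ.length - σ.length))) hinj]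
    simp only [List.length_ofFn]
    rw [tsum_fintype, Finset.sum_const, nsmul_eq_mul, Finset.card_univ]
    rw [← ENNReal.ofReal_natCast, ← ENNReal.ofReal_mul (by positivity)]
    apply ENNReal.ofReal_le_ofReal
    have h1 : Fintype.card {a : Fin N → Bool | Ev2 θ as n N u hpos a} =
        (univ.filter (fun a : Fin N → Bool => Ev2 θ as n N u hpos a)).card := by
      rw [← Fintype.card_subtype]
      rfl
    have h2 := card_of_Ex (fun a : Fin N → Bool => Ev2 θ as n N u hpos a)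
    have h3 : (2 : ℝ) ^ (f N - N) = 2 ^ (-(N : ℝ)) * 2 ^ f N := by
      rw [← Real.rpow_add (by norm_num)]; congr 1; ring
    rw [h1, h3, ← mul_assoc, h2]
    exact (mul_le_mul_of_nonneg_right hev (by positivity)).trans hb

theorem null_of_frequently2 (f : ℕ → ℝ)
    (hf : ∀ ε : ℝ, 0 < ε → ∃ᶠ N : ℕ in Filter.atTop, f N ≤ 2 ^ (Real.logb 2 N) ^ ε)
    (O : Set Oracle) (hO : ∀ A ∈ O, ∃ k, IsSigPoly A k (lang k A)) : Null f O := by
  intro δ hδ
  obtain ⟨δ', hδ', hsum⟩ := ENNReal.exists_pos_sum_of_countable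
    (ENNReal.ofReal_pos.2 hδ).ne' Par
  choose S hS hSs using fun θ : Par => cover_easy2 θ f hf (δ' θ) (by exact_mod_cast hδ' θ)
  refine ⟨⋃ θ, S θ, ?_, ?_⟩
  · intro A hA
    obtain ⟨k, hk⟩ := hO A hA
    obtain ⟨θ, hθ⟩ := mem_easy2 hk
    obtain ⟨σ, hσ, hE⟩ := hS θ A hθ
    exact ⟨σ, Set.mem_iUnion.2 ⟨θ, hσ⟩, hE⟩
  · refine (ENNReal.tsum_iUnion_le_tsum (fun σ : List Bool =>
      ENNReal.ofReal (2 ^ (f σ.length - σ.length))) S).trans ?_
    refine (ENNReal.tsum_le_tsum hSs).trans ?_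
    refine le_trans (le_of_eq ?_) hsum.le
    congr 1
    funext θ
    exact ENNReal.ofReal_coe_nnreal

end Pool.Agent.H591R3.PHG
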